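import Pool.Agent.Lib.MP_bb37eb_nt.SCH.Final
import Pool.Agent.Lib.MP_bb37eb_nt.ST.Transfer

/-!
# Brauer-Manin obstruction for fibrations over the projective line: disproof

There are a smooth projective geometrically integral surface `X` over the rational numbers and a
proper surjective morphism `p : X ⟶ ℙ¹` with geometrically integral fibres and smooth generic fibre
such that almost all fibres over rational points are smooth and satisfy `X_P(ℚ) = X_P(A)^Br`, but
the closure of `X(ℚ)` is strictly smaller than `X(A)^Br`.

The surface is given by `w² = 2(x² + 1)t² + 2t + (y + 2)` over `E × ℙ¹`, where `E` is the elliptic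
curve `y² = x³ + x`, with `E(ℚ) = {O, T}`, `T = (0, 0)`. It is a conic bundle over `E`: over `O` the
conic is `w² = 2t²`, a pair of lines conjugate over `ℚ(√2)` which meet in the only rational point of
`X`, over `T` it is `w² = 2t² + 2t + 2`, without 2-adic points. The map `p` is the coordinate `t`.
The Brauer classes of `E` force the 2-adic component of a point of the Brauer-Manin set to lie over
`O` or `T`, so almost all fibres `X_P` have `X_P(A)^Br = ∅`; at the prime 7 the two lines over `O`
are rational and `X(A)^Br` is larger than the closure of `X(ℚ)`.

All definitions used by the statement are in `Pool/Agent/Lib/MP_bb37eb_nt/ST/Base.lean` and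
`Pool/Agent/Lib/MP_bb37eb_nt/ST/Statement.lean`.
-/

namespace Pool.Agent.Results.MP_bb37eb_nt.FibrationOverLine

/-- The implication of Q1 is false (over the field of rational numbers). -/
theorem result : BB37.NegatedForm := BB37.negatedForm_of BB37.disproof

end Pool.Agent.Results.MP_bb37eb_nt.FibrationOverLine
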